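import Mathlib

/-!
# Diameter of random cubical graphs (MP_d3947f_pr): definitions and statements of all steps

Project DC.  Every `S_...` is a proposition to be proved in its own file.
-/

set_option autoImplicit false

open Finset Filter Topology
open scoped symmDiff

namespace Pool.Agent.Q157.DC

/-! ## Product Bernoulli spaces -/

/-- the weight of a configuration `ω` of independent marks, mark `i` being `true` with
probability `r i` -/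
noncomputable def wt {ι : Type} [Fintype ι] (r : ι → ℝ) (ω : ι → Bool) : ℝ :=
  ∏ i, if ω i = true then r i else 1 - r i

/-- expectation of `f` -/
noncomputable def Ex {ι : Type} [Fintype ι] [DecidableEq ι] (r : ι → ℝ)
    (f : (ι → Bool) → ℝ) : ℝ := ∑ ω, wt r ω * f ω

open Classical in
/-- probability of `A` -/
noncomputable def Pr {ι : Type} [Fintype ι] [DecidableEq ι] (r : ι → ℝ)
    (A : (ι → Bool) → Prop) : ℝ := ∑ ω, if A ω then wt r ω else 0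

/-- `f` depends only on the marks in `S` (used for real functions and for events) -/
def DepOn {ι β : Type} (S : Set ι) (f : (ι → Bool) → β) : Prop :=
  ∀ ω ω' : ι → Bool, (∀ i ∈ S, ω i = ω' i) → f ω = f ω'

/-- basic facts: total mass one, bounds, monotonicity, complement, union bound -/
def S_basic : Prop :=
  ∀ {ι : Type} [Fintype ι] [DecidableEq ι] (r : ι → ℝ), (∀ i, 0 ≤ r i ∧ r i ≤ 1) →
    (∀ ω, 0 ≤ wt r ω) ∧
    (∑ ω, wt r ω = 1) ∧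
    (∀ A, 0 ≤ Pr r A ∧ Pr r A ≤ 1) ∧
    (∀ A B : (ι → Bool) → Prop, (∀ ω, A ω → B ω) → Pr r A ≤ Pr r B) ∧
    (∀ A, Pr r (fun ω => ¬ A ω) = 1 - Pr r A) ∧
    (∀ A B : (ι → Bool) → Prop, Pr r (fun ω => A ω ∨ B ω) ≤ Pr r A + Pr r B) ∧
    (∀ {τ : Type} (F : Finset τ) (A : τ → (ι → Bool) → Prop),
      Pr r (fun ω => ∃ t ∈ F, A t ω) ≤ ∑ t ∈ F, Pr r (A t)) ∧
    (∀ (A : (ι → Bool) → Prop) (f : (ι → Bool) → ℝ), (∀ ω, 0 ≤ f ω) → (∀ ω, A ω → 1 ≤ f ω) →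
      Pr r A ≤ Ex r f)

/-- independence for functions depending on pairwise disjoint sets of marks -/
def S_ex_prod : Prop :=
  ∀ {ι : Type} [Fintype ι] [DecidableEq ι] (r : ι → ℝ) {τ : Type} (F : Finset τ)
    (S : τ → Set ι) (f : τ → (ι → Bool) → ℝ),
    (∀ t ∈ F, ∀ t' ∈ F, t ≠ t' → Disjoint (S t) (S t')) →
    (∀ t ∈ F, DepOn (S t) (f t)) →
    Ex r (fun ω => ∏ t ∈ F, f t ω) = ∏ t ∈ F, Ex r (f t)

/-- independence for events -/
def S_pr_forall : Prop :=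
  ∀ {ι : Type} [Fintype ι] [DecidableEq ι] (r : ι → ℝ) {τ : Type} (F : Finset τ)
    (S : τ → Set ι) (A : τ → (ι → Bool) → Prop),
    (∀ t ∈ F, ∀ t' ∈ F, t ≠ t' → Disjoint (S t) (S t')) →
    (∀ t ∈ F, DepOn (S t) (A t)) →
    Pr r (fun ω => ∀ t ∈ F, A t ω) = ∏ t ∈ F, Pr r (A t)

/-- independence for two events -/
def S_pr_and : Prop :=
  ∀ {ι : Type} [Fintype ι] [DecidableEq ι] (r : ι → ℝ) (S T : Set ι)
    (A B : (ι → Bool) → Prop), Disjoint S T → DepOn S A → DepOn T B →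
    Pr r (fun ω => A ω ∧ B ω) = Pr r A * Pr r B

/-- cylinder events -/
def S_cyl : Prop :=
  ∀ {ι : Type} [Fintype ι] [DecidableEq ι] (r : ι → ℝ) (S : Finset ι),
    Pr r (fun ω => ∀ i ∈ S, ω i = true) = ∏ i ∈ S, r i

/-- Harris inequality for decreasing events -/
def S_fkg : Prop :=
  ∀ {ι : Type} [Fintype ι] [DecidableEq ι] (r : ι → ℝ), (∀ i, 0 ≤ r i ∧ r i ≤ 1) →
    ∀ {τ : Type} (F : Finset τ) (A : τ → (ι → Bool) → Prop),
    (∀ t ∈ F, ∀ ω ω' : ι → Bool, (∀ i, ω i = true → ω' i = true) → A t ω' → A t ω) →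
    ∏ t ∈ F, Pr r (A t) ≤ Pr r (fun ω => ∀ t ∈ F, A t ω)

/-- Chebyshev / second moment -/
def S_cheb : Prop :=
  ∀ {ι : Type} [Fintype ι] [DecidableEq ι] (r : ι → ℝ), (∀ i, 0 ≤ r i ∧ r i ≤ 1) →
    ∀ {τ : Type} (F : Finset τ) (A : τ → (ι → Bool) → Prop),
    0 < ∑ t ∈ F, Pr r (A t) →
    Pr r (fun ω => ∀ t ∈ F, ¬ A t ω) ≤
      (∑ t ∈ F, ∑ t' ∈ F, Pr r (fun ω => A t ω ∧ A t' ω)) / (∑ t ∈ F, Pr r (A t)) ^ 2 - 1

/-! ## The random cubical graph -/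

/-- vertices of the `n`-cube: `v` is the set of coordinates equal to `1` -/
abbrev Vx (n : ℕ) : Type := Finset (Fin n)

/-- indices of the marks: one for every vertex and one for every unordered pair of vertices -/
abbrev Ix (n : ℕ) : Type := Vx n ⊕ Sym2 (Vx n)

/-- configurations of marks -/
abbrev Om (n : ℕ) : Type := Ix n → Bool

/-- `u` and `v` differ in exactly one coordinate -/
def nb {n : ℕ} (u v : Vx n) : Prop := (u ∆ v).card = 1

/-- the vertex `v` is kept -/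
def pres {n : ℕ} (ω : Om n) (v : Vx n) : Prop := ω (Sum.inl v) = true

/-- the mark of the pair `u, v` is positive -/
def opn {n : ℕ} (ω : Om n) (u v : Vx n) : Prop := ω (Sum.inr s(u, v)) = true

/-- the random cubical graph `h_n` (vertices that are not kept are isolated) -/
def hG {n : ℕ} (ω : Om n) : SimpleGraph (Vx n) where
  Adj u v := nb u v ∧ pres ω u ∧ pres ω v ∧ opn ω u v
  symm := ⟨fun u v h => ⟨by have := h.1; unfold nb at *; rwa [symmDiff_comm], h.2.2.1, h.2.1,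
    by have := h.2.2.2; unfold opn at *; rwa [Sym2.eq_swap]⟩⟩
  loopless := ⟨fun u h => by have := h.1; simp [nb] at this⟩

/-- vertices are kept with probability `pv`, edges with probability `pe` -/
noncomputable def rt (pv pe : ℝ) (n : ℕ) : Ix n → ℝ := Sum.elim (fun _ => pv) (fun _ => pe)

/-- `m_p` -/
noncomputable def mp (p : ℝ) : ℕ := ⌊-1 / Real.logb 2 (1 - p)⌋₊

/-- open directions at `v` -/
noncomputable def op {n : ℕ} (ω : Om n) (v : Vx n) : Finset (Fin n) :=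
  open Classical in univ.filter (fun i => pres ω (v ∆ {i}) ∧ opn ω v (v ∆ {i}))

/-- `v` has fewer than `δ n` open directions -/
def poor {n : ℕ} (δ : ℝ) (ω : Om n) (v : Vx n) : Prop := ((op ω v).card : ℝ) < δ * n

/-! ## Poor vertices -/

/-- clean directions at `v` relative to `S` -/
noncomputable def Gd {n : ℕ} (S : Finset (Vx n)) (v : Vx n) : Finset (Fin n) :=
  open Classical in
  univ.filter (fun i => ∀ v' ∈ S, v' ≠ v → ¬ nb (v ∆ {i}) v' ∧ v ∆ {i} ≠ v')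

/-- For `v' ≠ v` at most two directions are excluded: `v ∆ {i} = v'` forces `v ∆ v' = {i}`;
`nb (v ∆ {i}) v'` forces `|v ∆ v'| = 2` and `i ∈ v ∆ v'` (or `v = v'`). -/
def S_Gd : Prop := ∀ (n : ℕ) (S : Finset (Vx n)) (v : Vx n), n ≤ (Gd S v).card + 2 * S.card

/-- Exponential Markov inequality: the pairs (mark of `v ∆ {i}`, mark of the edge `v, v ∆ {i}`),
`v ∈ S`, `i ∈ Gd S v`, are distinct, hence
`P(all |op v| < D) ≤ E ∏ θ^(|op v ∩ Gd v| - D) = θ^(-D|S|) ∏ (1 - p + p θ)`. -/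
def S_poor : Prop :=
  ∀ (pv pe : ℝ), 0 < pv → pv ≤ 1 → 0 < pe → pe ≤ 1 → ∀ (n : ℕ) (θ D : ℝ), 0 < θ → θ ≤ 1 →
    0 ≤ D → ∀ S : Finset (Vx n),
    Pr (rt pv pe n) (fun ω => ∀ v ∈ S, ((op ω v).card : ℝ) < D) ≤
      (θ ^ (-D)) ^ S.card * (1 - pv * pe + pv * pe * θ) ^ (S.card * (n - 2 * S.card))

/-- the constants -/
def S_const : Prop :=
  ∀ p : ℝ, 0 < p → p < 1 / 2 →
    1 ≤ mp p ∧ 1 / 2 ≤ (1 - p) ^ (mp p) ∧
    ∃ θ δ ρ : ℝ, 0 < θ ∧ θ ≤ 1 ∧ 0 < δ ∧ δ ≤ 1 / 2 ∧ 0 < ρ ∧ 2 * ρ ^ (mp p + 1) < 1 ∧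
      θ ^ (-δ) * (1 - p + p * θ) ≤ ρ

/-- the bound for `m + 1` poor vertices that is used in the sequel -/
def PoorBound (pv pe δ ρ C : ℝ) (m : ℕ) : Prop :=
  ∀ (n : ℕ) (S : Finset (Vx n)), S.card = m + 1 →
    Pr (rt pv pe n) (fun ω => ∀ v ∈ S, poor δ ω v) ≤ C * ρ ^ ((m + 1) * n)

/-- from `S_poor` and `S_const` (with `D = δ n`) -/
def S_poorBound : Prop :=
  ∀ (pv pe : ℝ), 0 < pv → pv ≤ 1 → 0 < pe → pe ≤ 1 → pv * pe < 1 / 2 →
    ∃ δ ρ C : ℝ, 0 < δ ∧ δ ≤ 1 / 2 ∧ 0 < ρ ∧ 0 < C ∧ 2 * ρ ^ (mp (pv * pe) + 1) < 1 ∧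
      PoorBound pv pe δ ρ C (mp (pv * pe))

/-- `s` is near `x` or near the antipode of `x` -/
def near {n : ℕ} (K : ℕ) (x s : Vx n) : Prop := (x ∆ s).card ≤ K ∨ n ≤ (x ∆ s).card + K

/-- number of vertices near `x`: subsets of size at most `K` (at least `n - K`) of `Fin n`
number at most `(n+1)^K` each -/
def S_nearCard : Prop :=
  ∀ (n K : ℕ) (x : Vx n), open Classical in
    (univ.filter (fun s => near K x s)).card ≤ 2 * (n + 1) ^ K

/-- bad event 1: `m + 1` poor vertices near one vertex -/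
def Bad1 {n : ℕ} (δ : ℝ) (m K : ℕ) (ω : Om n) : Prop :=
  ∃ (x : Vx n) (S : Finset (Vx n)), S.card = m + 1 ∧ (∀ s ∈ S, near K x s) ∧
    ∀ s ∈ S, poor δ ω s

/-- union bound: at most `2^n (2 (n+1)^K)^(m+1)` pairs `(x, S)` -/
def S_bad1 : Prop :=
  ∀ (pv pe δ ρ C : ℝ) (m : ℕ), 0 < pv → pv ≤ 1 → 0 < pe → pe ≤ 1 → 0 < ρ → 0 < C →
    2 * ρ ^ (m + 1) < 1 → PoorBound pv pe δ ρ C m → ∀ K : ℕ,
    Tendsto (fun n : ℕ => Pr (rt pv pe n) (Bad1 δ m K)) atTop (𝓝 0)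

/-! ## Open geodesics -/

/-- there is a shortest path of the cube from `u` to `w` all of whose pairs have positive marks
and all of whose interior vertices are kept -/
def Geo {n : ℕ} (ω : Om n) (u w : Vx n) : Prop :=
  ∃ f : ℕ → Vx n, f 0 = u ∧ f (u ∆ w).card = w ∧
    (∀ l < (u ∆ w).card, nb (f l) (f (l + 1)) ∧ opn ω (f l) (f (l + 1))) ∧
    ∀ l, 0 < l → l < (u ∆ w).card → pres ω (f l)

/-- number of common levels of a permutation with the identity -/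
noncomputable def cl {k : ℕ} (σ : Equiv.Perm (Fin k)) : ℕ :=
  open Classical in
  ((range k).filter (fun l => 0 < l ∧ ∀ i : Fin k, (i : ℕ) < l → (σ i : ℕ) < l)).card

/-- `g(k) = ∑ lam ^ cl`.  Splitting at the last common level `l` (`0 < l < k`,
`σ {i < l} = {i < l}`, no common level in `(l, k)`) gives
`g k ≤ k! + lam * ∑_{l=1}^{k-1} g l * (k-l)!`: permutations without common level contribute
at most `k!`; if the last common level is `l` then `σ` restricts to a permutation `σ₁` of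
`{i < l}` and a permutation `σ₂` of the rest, `σ ↦ (σ₁, σ₂)` is injective and
`cl σ = 1 + cl σ₁`. -/
def S_perm_rec : Prop :=
  ∀ (lam : ℝ), 1 ≤ lam → ∀ k : ℕ,
    ∑ σ : Equiv.Perm (Fin k), lam ^ cl σ ≤ (k.factorial : ℝ) +
      lam * ∑ l ∈ Finset.Ico 1 k, (∑ σ : Equiv.Perm (Fin l), lam ^ cl σ) *
        ((k - l).factorial : ℝ)

/-- `∑_{l=1}^{k-1} l! (k-l)! ≤ 4 k! / k` and induction -/
def S_perm_asym : Prop :=
  ∀ (lam : ℝ), 1 ≤ lam → ∀ g : ℕ → ℝ, (∀ k, 0 ≤ g k) →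
    (∀ k, g k ≤ (k.factorial : ℝ) + lam * ∑ l ∈ Finset.Ico 1 k, g l * ((k - l).factorial : ℝ)) →
    ∃ C : ℝ, 0 < C ∧ ∀ k : ℕ, 1 ≤ k → g k ≤ (k.factorial : ℝ) * (1 + C / k)

/-- Second moment over the `k!` shortest paths.  Let `e` enumerate `u ∆ w` and let the path of
`σ` have the vertices `u ∆ {e (σ i) : i < l}`, `l = 0..k`.  `A σ`: the marks of its `k - 1`
interior vertices and of its `k` pairs are positive; `Pr (A σ) = pv^(k-1) pe^k =: π` (`S_cyl`).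
Two different paths with `c` common interior vertices have at most `c` common pairs (for an
uncommon level `l₀` send a common pair below `l₀` to its upper and one above to its lower
vertex), so `Pr (A σ ∧ A τ) ≤ π^2 (pv pe)^(-c)`, `c = cl (τ⁻¹ σ)`; and
`Pr (A σ) = π ≤ π^2 (pv pe)^(-k)`.  Then `S_cheb` over `F = univ`, `μ = k! π`. -/
def S_geo2 : Prop :=
  ∀ (pv pe : ℝ), 0 < pv → pv ≤ 1 → 0 < pe → pe ≤ 1 → ∀ (n : ℕ) (u w : Vx n) (k : ℕ),
    (u ∆ w).card = k → 1 ≤ k →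
    Pr (rt pv pe n) (fun ω => ¬ Geo ω u w) ≤
      (∑ σ : Equiv.Perm (Fin k), (1 / (pv * pe)) ^ cl σ) / (k.factorial : ℝ) - 1 +
        (1 / (pv * pe)) ^ k / (k.factorial : ℝ)

/-- long geodesics exist with probability close to one -/
def S_geo : Prop :=
  ∀ (pv pe : ℝ), 0 < pv → pv ≤ 1 → 0 < pe → pe ≤ 1 → ∀ ε : ℝ, 0 < ε → ∃ k₀ : ℕ, 1 ≤ k₀ ∧
    ∀ (n : ℕ) (u w : Vx n), k₀ ≤ (u ∆ w).card →
      Pr (rt pv pe n) (fun ω => ¬ Geo ω u w) ≤ ε

/-- the interval (subcube) spanned by `u` and `w` -/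
def Iv {n : ℕ} (u w : Vx n) : Set (Vx n) := {v | u ∆ v ⊆ u ∆ w}

/-- the marks of the vertices in `U` and of the pairs inside `U` -/
def reg {n : ℕ} (U : Set (Vx n)) : Set (Ix n) :=
  {i | (∃ v ∈ U, i = Sum.inl v) ∨ ∃ a ∈ U, ∃ b ∈ U, i = Sum.inr s(a, b)}

/-- a path of `|u ∆ w|` steps from `u` to `w` stays in the interval -/
def S_geo_dep : Prop :=
  ∀ (n : ℕ) (u w : Vx n), DepOn (reg (Iv u w)) (fun ω => Geo ω u w)

/-- an open geodesic between kept vertices bounds the distance -/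
def S_geo_dist : Prop :=
  ∀ (n : ℕ) (ω : Om n) (u w : Vx n), pres ω u → pres ω w → Geo ω u w →
    (hG ω).Reachable u w ∧ (hG ω).dist u w ≤ (u ∆ w).card

/-! ## Attempts -/

/-- `u` and `w` are connected through the bottleneck vertices `v` and `z` -/
def Try {n : ℕ} (ω : Om n) (u v z w : Vx n) : Prop :=
  Geo ω u v ∧ Geo ω v z ∧ Geo ω z w ∧ pres ω v ∧ pres ω z

/-- one attempt fails with probability at most `(1 - pv^2)^J + 3 J ε` (either all the `J` pairs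
`v t j, z t j` of `2 J` distinct vertices are not both kept, or one of the `3 J` geodesics is
missing); attempts in disjoint regions are independent: the event of attempt `t` depends only on
`reg (U t)` by `S_geo_dep`, and `reg (U t)`, `reg (U t')` are disjoint -/
def S_att : Prop :=
  ∀ (pv pe : ℝ), 0 < pv → pv ≤ 1 → 0 < pe → pe ≤ 1 → ∀ (n M J : ℕ) (ε : ℝ)
    (u w : Fin M → Vx n) (v z : Fin M → Fin J → Vx n) (U : Fin M → Set (Vx n)), 0 ≤ ε →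
    (∀ t t', t ≠ t' → Disjoint (U t) (U t')) →
    (∀ t j, Iv (u t) (v t j) ⊆ U t ∧ Iv (v t j) (z t j) ⊆ U t ∧ Iv (z t j) (w t) ⊆ U t) →
    (∀ t, Function.Injective (v t)) → (∀ t, Function.Injective (z t)) →
    (∀ t j j', v t j ≠ z t j') →
    (∀ t j, Pr (rt pv pe n) (fun ω => ¬ Geo ω (u t) (v t j)) ≤ ε ∧
      Pr (rt pv pe n) (fun ω => ¬ Geo ω (v t j) (z t j)) ≤ ε ∧
      Pr (rt pv pe n) (fun ω => ¬ Geo ω (z t j) (w t)) ≤ ε) →
    Pr (rt pv pe n) (fun ω => ∀ t j, ¬ Try ω (u t) (v t j) (z t j) (w t)) ≤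
      ((1 - pv ^ 2) ^ J + 3 * J * ε) ^ M

/-- the region of an attempt -/
def Ureg {n : ℕ} (I I' : Finset (Fin n)) (u w : Vx n) : Set (Vx n) :=
  {s | (s ∆ u) ∩ I = ∅ ∧ (s ∆ u) ∩ I' ⊆ u ∆ w} ∪ {s | (s ∆ w) ∩ I' = ∅ ∧ (s ∆ w) ∩ I ⊆ u ∆ w}

/-- regions of different attempts are disjoint -/
def S_disj : Prop :=
  ∀ (n : ℕ) (x y : Vx n) (I I' : Finset (Fin n)), Disjoint I I' →
    (I' ⊆ x ∆ y ∨ Disjoint I' (x ∆ y)) →
    ∀ a ∈ I, ∀ a₂ ∈ I, ∀ b ∈ I', ∀ b₂ ∈ I', a ≠ a₂ → b ≠ b₂ →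
      Disjoint (Ureg I I' (x ∆ {a}) (y ∆ {b})) (Ureg I I' (x ∆ {a₂}) (y ∆ {b₂}))

/-- the bottleneck vertex: equal to `u` on `I`, to `w` on `I'` and to `α` outside -/
def bn {n : ℕ} (I I' : Finset (Fin n)) (u w α : Vx n) : Vx n :=
  (u ∩ I) ∪ (w ∩ I') ∪ (α \ (I ∪ I'))

/-- the three intervals of an attempt lie in the region -/
def S_iv : Prop :=
  ∀ (n : ℕ) (I I' : Finset (Fin n)) (u w α β : Vx n), Disjoint I I' →
    Iv u (bn I I' u w α) ⊆ Ureg I I' u w ∧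
    Iv (bn I I' u w α) (bn I I' u w β) ⊆ Ureg I I' u w ∧
    Iv (bn I I' u w β) w ⊆ Ureg I I' u w

/-- admissible pair of index sets -/
def Adm {n : ℕ} (δ : ℝ) (x y : Vx n) (I I' : Finset (Fin n)) : Prop :=
  I.card = ⌊δ * n / 16⌋₊ ∧ I'.card = ⌊δ * n / 16⌋₊ ∧ Disjoint I I' ∧
    (((1 - δ / 2) * n ≤ ((x ∆ y).card : ℝ) ∧ I ⊆ x ∆ y ∧ I' ⊆ x ∆ y) ∨
      (((x ∆ y).card : ℝ) < (1 - δ / 2) * n ∧ (I' ⊆ x ∆ y ∨ Disjoint I' (x ∆ y))))

/-- lengths in case 1: `|x ∆ y| ≥ (1 - δ/2) n`, `α j = x ∆ {c j}`, `β j = y ∆ {c' j}` with `2 J`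
distinct elements `c j, c' j` of `(x ∆ y) \ (I ∪ I')`; the total length is exactly `|x ∆ y|` -/
def S_case1 : Prop :=
  ∀ (δ : ℝ) (m J k₀ : ℕ), 0 < δ → δ ≤ 1 / 2 → ∃ n₀ : ℕ, ∀ n ≥ n₀, ∀ (x y : Vx n)
    (I I' : Finset (Fin n)), Adm δ x y I I' → (1 - δ / 2) * n ≤ ((x ∆ y).card : ℝ) →
    ∃ α β : Fin J → Vx n,
      ∀ a ∈ I, ∀ b ∈ I',
        Function.Injective (fun j => bn I I' (x ∆ {a}) (y ∆ {b}) (α j)) ∧
        Function.Injective (fun j => bn I I' (x ∆ {a}) (y ∆ {b}) (β j)) ∧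
        (∀ j j', bn I I' (x ∆ {a}) (y ∆ {b}) (α j) ≠ bn I I' (x ∆ {a}) (y ∆ {b}) (β j')) ∧
        ∀ j, k₀ ≤ ((x ∆ {a}) ∆ bn I I' (x ∆ {a}) (y ∆ {b}) (α j)).card ∧
          k₀ ≤ (bn I I' (x ∆ {a}) (y ∆ {b}) (α j) ∆ bn I I' (x ∆ {a}) (y ∆ {b}) (β j)).card ∧
          k₀ ≤ (bn I I' (x ∆ {a}) (y ∆ {b}) (β j) ∆ (y ∆ {b})).card ∧
          ((x ∆ {a}) ∆ bn I I' (x ∆ {a}) (y ∆ {b}) (α j)).card +
            (bn I I' (x ∆ {a}) (y ∆ {b}) (α j) ∆ bn I I' (x ∆ {a}) (y ∆ {b}) (β j)).card +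
            (bn I I' (x ∆ {a}) (y ∆ {b}) (β j) ∆ (y ∆ {b})).card + 2 ≤
          max (x ∆ y).card (n - 2 * m)

/-- lengths in case 2: `|x ∆ y| < (1 - δ/2) n`; `W, W'` disjoint subsets with
`⌊δ n / 16⌋` elements of the complement of `(x ∆ y) ∪ I ∪ I'`, `α j = x ∆ (W \ {c j})`,
`β j = y ∆ (W' \ {c' j})`; the total length is at most `|x ∆ y| + 6 ⌊δ n / 16⌋ + 2 ≤ n - 2 m` -/
def S_case2 : Prop :=
  ∀ (δ : ℝ) (m J k₀ : ℕ), 0 < δ → δ ≤ 1 / 2 → ∃ n₀ : ℕ, ∀ n ≥ n₀, ∀ (x y : Vx n)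
    (I I' : Finset (Fin n)), Adm δ x y I I' → ((x ∆ y).card : ℝ) < (1 - δ / 2) * n →
    ∃ α β : Fin J → Vx n,
      ∀ a ∈ I, ∀ b ∈ I',
        Function.Injective (fun j => bn I I' (x ∆ {a}) (y ∆ {b}) (α j)) ∧
        Function.Injective (fun j => bn I I' (x ∆ {a}) (y ∆ {b}) (β j)) ∧
        (∀ j j', bn I I' (x ∆ {a}) (y ∆ {b}) (α j) ≠ bn I I' (x ∆ {a}) (y ∆ {b}) (β j')) ∧
        ∀ j, k₀ ≤ ((x ∆ {a}) ∆ bn I I' (x ∆ {a}) (y ∆ {b}) (α j)).card ∧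
          k₀ ≤ (bn I I' (x ∆ {a}) (y ∆ {b}) (α j) ∆ bn I I' (x ∆ {a}) (y ∆ {b}) (β j)).card ∧
          k₀ ≤ (bn I I' (x ∆ {a}) (y ∆ {b}) (β j) ∆ (y ∆ {b})).card ∧
          ((x ∆ {a}) ∆ bn I I' (x ∆ {a}) (y ∆ {b}) (α j)).card +
            (bn I I' (x ∆ {a}) (y ∆ {b}) (α j) ∆ bn I I' (x ∆ {a}) (y ∆ {b}) (β j)).card +
            (bn I I' (x ∆ {a}) (y ∆ {b}) (β j) ∆ (y ∆ {b})).card + 2 ≤
          max (x ∆ y).card (n - 2 * m)

/-- a successful attempt of the right length -/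
def Good {n : ℕ} (m : ℕ) (ω : Om n) (x y : Vx n) (I I' : Finset (Fin n)) : Prop :=
  ∃ a ∈ I, ∃ b ∈ I', ∃ v z : Vx n, Try ω (x ∆ {a}) v z (y ∆ {b}) ∧
    ((x ∆ {a}) ∆ v).card + (v ∆ z).card + (z ∆ (y ∆ {b})).card + 2 ≤
      max (x ∆ y).card (n - 2 * m)

/-- failure of all attempts for one admissible quadruple: from `S_geo`, `S_att`, `S_disj`, `S_iv`,
`S_case1`, `S_case2`; choose `J` with `(1 - pv^2)^J ≤ η/2` and `ε` with `3 J ε ≤ η/2`, and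
attempt `t` uses the `t`-th element of `I` and the `t`-th element of `I'` -/
def S_good : Prop :=
  ∀ (pv pe : ℝ), 0 < pv → pv ≤ 1 → 0 < pe → pe ≤ 1 → ∀ (δ η : ℝ) (m : ℕ), 0 < δ → δ ≤ 1 / 2 →
    0 < η → ∃ n₀ : ℕ, ∀ n ≥ n₀, ∀ (x y : Vx n) (I I' : Finset (Fin n)), Adm δ x y I I' →
      Pr (rt pv pe n) (fun ω => ¬ Good m ω x y I I') ≤ η ^ ⌊δ * n / 16⌋₊

/-- bad event 2: all attempts fail for some admissible quadruple -/
def Bad2 {n : ℕ} (δ : ℝ) (m : ℕ) (ω : Om n) : Prop :=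
  ∃ (x y : Vx n) (I I' : Finset (Fin n)), Adm δ x y I I' ∧ ¬ Good m ω x y I I'

/-- union bound over at most `16^n` quadruples: take `η` with `η^⌊δ n/16⌋ ≤ 32^(-n)` for large
`n` -/
def S_bad2 : Prop :=
  ∀ (pv pe : ℝ), 0 < pv → pv ≤ 1 → 0 < pe → pe ≤ 1 → ∀ (δ : ℝ) (m : ℕ), 0 < δ → δ ≤ 1 / 2 →
    Tendsto (fun n : ℕ => Pr (rt pv pe n) (Bad2 δ m)) atTop (𝓝 0)

/-- rich kept vertices are joined by short paths.  `M = ⌊δ n / 16⌋₊`.  If
`|x ∆ y| ≥ (1 - δ/2) n` then `|op x ∩ (x ∆ y)| ≥ δ n / 2 ≥ 2 M`: choose `I` in it with `M`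
elements and `I'` in `(op y ∩ (x ∆ y)) \ I`.  Otherwise choose `I ⊆ op x` with `M` elements;
`op y \ I` has at least `δ n - M ≥ 2 M` elements, so one of its two parts inside and outside
`x ∆ y` contains `I'` with `M` elements.  `Good` gives the path
`x, x ∆ {a}, ..., v, ..., z, ..., y ∆ {b}, y`, use `S_geo_dist` three times. -/
def S_rich : Prop :=
  ∀ (δ : ℝ) (m : ℕ), 0 < δ → δ ≤ 1 / 2 → ∃ n₀ : ℕ, ∀ n ≥ n₀, ∀ ω : Om n, ¬ Bad2 δ m ω →
    ∀ x y : Vx n, pres ω x → pres ω y → ¬ poor δ ω x → ¬ poor δ ω y →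
      (hG ω).Reachable x y ∧ (hG ω).dist x y ≤ max (x ∆ y).card (n - 2 * m)

/-! ## Pendant paths -/

/-- the `l`-th vertex of the path from `y` in the directions `i 0, i 1, ...` -/
noncomputable def ypt {n m : ℕ} (y : Vx n) (i : Fin m ↪ Fin n) (l : ℕ) : Vx n :=
  y ∆ ((univ.filter (fun j : Fin m => (j : ℕ) < l)).map i)

/-- the path `y_0, ..., y_m` is pendant: its vertices are kept and its edges open, every other
direction at `y_0, ..., y_{m-1}` is closed, and the antipode of `y_m` is kept -/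
def EA {n m : ℕ} (ω : Om n) (α : Vx n × (Fin m ↪ Fin n)) : Prop :=
  (∀ l ≤ m, pres ω (ypt α.1 α.2 l)) ∧
  (∀ l < m, opn ω (ypt α.1 α.2 l) (ypt α.1 α.2 (l + 1))) ∧
  (∀ l < m, ∀ v, nb (ypt α.1 α.2 l) v → v ≠ ypt α.1 α.2 (l + 1) →
    (∀ l', l' + 1 = l → v ≠ ypt α.1 α.2 l') → ¬ (pres ω v ∧ opn ω (ypt α.1 α.2 l) v)) ∧
  pres ω (ypt α.1 α.2 m)ᶜ

/-- geometry of the path -/
def S_ypt : Prop :=
  ∀ (n m : ℕ) (y : Vx n) (i : Fin m ↪ Fin n),
    ypt y i 0 = y ∧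
    (∀ l l', l ≤ l' → l' ≤ m → (ypt y i l ∆ ypt y i l').card = l' - l) ∧
    (∀ l l', l ≤ m → l' ≤ m → ypt y i l = ypt y i l' → l = l') ∧
    (∀ i' : Fin m ↪ Fin n, (∀ l ≤ m, ypt y i l = ypt y i' l) → i = i')

/-- lower bound: the marks of the `m + 1` path vertices, of the antipode (another vertex, `m < n`)
and of the `m` path edges have probability `pv^(m+2) pe^m` (`S_cyl`) and are independent
(`S_pr_and`) of the closed events, which never involve them: a neighbour `v` of `y_l`, `l < m`,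
different from `y_{l+1}` and `y_{l-1}` is not on the path (`S_ypt`) and is not the antipode of
`y_m` (distance to `y_m` at most `m + 1 < n`).  Each of the at most `m n` closed events
(one for every `l < m` and every coordinate) has probability `1 - pv pe` and they are
decreasing, use `S_fkg` -/
def S_EA_low : Prop :=
  ∀ (pv pe : ℝ), 0 < pv → pv ≤ 1 → 0 < pe → pe ≤ 1 → ∀ (n m : ℕ), m + 2 ≤ n →
    ∀ α : Vx n × (Fin m ↪ Fin n),
      pv ^ (m + 2) * pe ^ m * (1 - pv * pe) ^ (m * n) ≤ Pr (rt pv pe n) (fun ω => EA ω α)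

/-- far pendant paths are independent: `EA ω (y, i)` depends on the marks of the vertices at
distance at most `m + 1` or at least `n - m` of `y` and of pairs at distance at most `m + 1` -/
def S_EA_far : Prop :=
  ∀ (pv pe : ℝ) (n m : ℕ) (α α' : Vx n × (Fin m ↪ Fin n)),
    ¬ near (2 * m + 2) α.1 α'.1 →
    Pr (rt pv pe n) (fun ω => EA ω α ∧ EA ω α') =
      Pr (rt pv pe n) (fun ω => EA ω α) * Pr (rt pv pe n) (fun ω => EA ω α')

/-- two pendant paths with the same set `P` of inner vertices coincide: `y_m` is the only vertex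
outside `P` adjacent in `hG ω` to a vertex of `P`, so `y_m = y'_m`; then
`y_l = y'_l` by descending induction, since inside `P ∪ {y_m}` the only neighbours of `y_l`
(`l < m`) are `y_{l+1}` and `y_{l-1}`; finally `S_ypt` -/
def S_EA_same : Prop :=
  ∀ (n m : ℕ), 1 ≤ m → ∀ (ω : Om n) (α α' : Vx n × (Fin m ↪ Fin n)), EA ω α → EA ω α' →
    (∀ l < m, ∃ l' < m, ypt α.1 α.2 l = ypt α'.1 α'.2 l') →
    (∀ l < m, ∃ l' < m, ypt α'.1 α'.2 l = ypt α.1 α.2 l') → α = α'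

/-- inner vertices of a pendant path have at most two open directions -/
def S_EA_poor : Prop :=
  ∀ (n m : ℕ) (ω : Om n) (α : Vx n × (Fin m ↪ Fin n)), EA ω α →
    ∀ l < m, (op ω (ypt α.1 α.2 l)).card ≤ 2

/-- two different pendant paths occur together with probability at most
`choose (2m) (m+1) * C * ρ^((m+1) n)`: by `S_EA_same` and `S_EA_poor` the union of the two sets
of inner vertices has at least `m + 1` elements, all poor -/
def S_EA_near : Prop :=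
  ∀ (pv pe δ ρ C : ℝ) (m : ℕ), 0 < pv → pv ≤ 1 → 0 < pe → pe ≤ 1 → 0 < δ → 0 < ρ → 0 < C →
    1 ≤ m → PoorBound pv pe δ ρ C m → ∃ n₀ : ℕ, ∀ n ≥ n₀,
      ∀ α α' : Vx n × (Fin m ↪ Fin n), α ≠ α' →
      Pr (rt pv pe n) (fun ω => EA ω α ∧ EA ω α') ≤ C * ρ ^ ((m + 1) * n)

/-- a.a.s. there is a pendant path (second moment, `S_cheb`).  `μ = ∑ Pr (EA α) ≥
2^n n(n-1)...(n-m+1) pv^(m+2) pe^m (1-p)^(m n) ≥ c (n - m) → ∞` by `S_EA_low` and
`(1-p)^m ≥ 1/2`.  Double sum: far pairs (`¬ near (2m+2)`) contribute at most `μ^2` by `S_EA_far`,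
the diagonal `μ`, the near pairs at most `2^n n^m * 2 (n+1)^(2m+2) n^m * C ρ^((m+1) n) → 0` by
`S_EA_near`, `S_nearCard` -/
def S_EA_exists : Prop :=
  ∀ (pv pe δ ρ C : ℝ) (m : ℕ), 0 < pv → pv ≤ 1 → 0 < pe → pe ≤ 1 → 0 < δ → 0 < ρ → 0 < C →
    1 ≤ m → 1 / 2 ≤ (1 - pv * pe) ^ m → 2 * ρ ^ (m + 1) < 1 → PoorBound pv pe δ ρ C m →
    Tendsto (fun n : ℕ => Pr (rt pv pe n)
      (fun ω => ∀ α : Vx n × (Fin m ↪ Fin n), ¬ EA ω α)) atTop (𝓝 0)

/-- distances along a pendant path and from its root `y_0` to the antipode of `y_m`: the function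
`φ (y_l) = l` for `l < m` and `φ v = m + |v ∆ y_m|` for `v` outside `{y_0..y_{m-1}}` changes by at
most one along edges of `hG ω` (edges at `y_l`, `l < m`, go to `y_{l+1}` or `y_{l-1}` only), is `0` at
`y_0` and `m + n` at the antipode -/
def S_EA_dist : Prop :=
  ∀ (n m : ℕ), m < n → ∀ (ω : Om n) (α : Vx n × (Fin m ↪ Fin n)), EA ω α →
    (hG ω).Reachable (ypt α.1 α.2 0) (ypt α.1 α.2 m) ∧
    (hG ω).dist (ypt α.1 α.2 0) (ypt α.1 α.2 m) ≤ m ∧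
    ((hG ω).Reachable (ypt α.1 α.2 0) (ypt α.1 α.2 m)ᶜ →
      n + m ≤ (hG ω).dist (ypt α.1 α.2 0) (ypt α.1 α.2 m)ᶜ)

/-! ## Assembly -/

/-- deterministic upper bound.  Take a shortest walk `x = x_0, ..., x_L = y` of `hG ω` and suppose
`L ≥ m`.  Its vertices are distinct and kept, `|x ∆ x_i| ≤ i`.  Among `x_0, ..., x_m` one is rich
(otherwise `Bad1` with these `m + 1` vertices), let `a ≤ m` be the first rich index; likewise
`L - b` the last rich index, `b ≤ m`, `a ≤ L - b`.  So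
`L ≤ a + b + max |x_a ∆ x_{L-b}| (n - 2m)`.  If `|x ∆ y| < n - 3m` then
`|x_a ∆ x_{L-b}| ≤ |x ∆ y| + 2m < n - m` and `L ≤ n + m`.  Otherwise the `a + b` poor vertices
`x_0..x_{a-1}, x_{L-b+1}..x_L` are all near `x` with `K = 4m`, so `a + b ≤ m` (else `Bad1` with
`m + 1` of them) and `L ≤ m + n`. -/
def S_upper : Prop :=
  ∀ (δ : ℝ) (m : ℕ), 0 < δ → δ ≤ 1 / 2 → ∃ n₀ : ℕ, ∀ n ≥ n₀, ∀ ω : Om n,
    ¬ Bad1 δ m (4 * m) ω →
    (∀ x y : Vx n, pres ω x → pres ω y → ¬ poor δ ω x → ¬ poor δ ω y →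
      (hG ω).Reachable x y ∧ (hG ω).dist x y ≤ max (x ∆ y).card (n - 2 * m)) →
    ∀ x y : Vx n, pres ω x → pres ω y → (hG ω).Reachable x y → (hG ω).dist x y ≤ n + m

/-- deterministic lower bound.  `y_m` and its antipode are kept and rich: otherwise `Bad1` with the
vertex `y_m` and the set consisting of `y_0, ..., y_{m-1}` (poor by `S_EA_poor` when
`2 < δ n`) and the poor one of the two.  So they are connected by a path of length at most
`n`; with `S_EA_dist` the distance from `y_0` to the antipode of `y_m` is `n + m`. -/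
def S_lower : Prop :=
  ∀ (δ : ℝ) (m : ℕ), 0 < δ → δ ≤ 1 / 2 → 1 ≤ m → ∃ n₀ : ℕ, ∀ n ≥ n₀, ∀ ω : Om n,
    ¬ Bad1 δ m (4 * m) ω →
    (∀ x y : Vx n, pres ω x → pres ω y → ¬ poor δ ω x → ¬ poor δ ω y →
      (hG ω).Reachable x y ∧ (hG ω).dist x y ≤ max (x ∆ y).card (n - 2 * m)) →
    (∃ α : Vx n × (Fin m ↪ Fin n), EA ω α) →
    ∃ x y : Vx n, pres ω x ∧ pres ω y ∧ (hG ω).Reachable x y ∧ (hG ω).dist x y = n + m

/-- `D(h_n) = n + m_p` -/
def DiamEq {n : ℕ} (ω : Om n) (D : ℕ) : Prop :=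
  IsGreatest {d | ∃ x y : Vx n, pres ω x ∧ pres ω y ∧ (hG ω).Reachable x y ∧
    (hG ω).dist x y = d} D

/-- the answer to Q1 -/
def S_main : Prop :=
  ∀ pv pe : ℝ, 0 < pv → pv ≤ 1 → 0 < pe → pe ≤ 1 → pv * pe < 1 / 2 →
    Tendsto (fun n : ℕ => Pr (rt pv pe n) (fun ω => DiamEq ω (n + mp (pv * pe)))) atTop (𝓝 1)

end Pool.Agent.Q157.DC
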