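import Pool.Agent.Q157.DC.Stm

set_option autoImplicit false

open Finset Filter Topology
open scoped symmDiff

namespace Pool.Agent.Q157.DC

/-- a permutation with `ρ i ≤ i` is the identity -/
lemma perm_eq_one {k : ℕ} (ρ : Equiv.Perm (Fin k)) (h : ∀ i, (ρ i : ℕ) ≤ i) : ρ = 1 := by
  have key : ∀ m : ℕ, ∀ i : Fin k, (i : ℕ) = m → ρ i = i := by
    intro m
    induction m using Nat.strong_induction_on with
    | _ m ih =>
      intro i hi
      by_contra hne
      have hlt : (ρ i : ℕ) < i := lt_of_le_of_ne (h i) (fun h' => hne (Fin.ext h'))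
      have := ih (ρ i : ℕ) (hi ▸ hlt) (ρ i) rfl
      exact hne (ρ.injective this)
  ext i
  rw [key _ i rfl]
  rfl

/-- common level -/
def Cm {k : ℕ} (ρ : Equiv.Perm (Fin k)) (l : ℕ) : Prop := ∀ i : Fin k, (i : ℕ) < l → (ρ i : ℕ) < l

lemma cl_eq {k : ℕ} (ρ : Equiv.Perm (Fin k)) [DecidablePred (fun l => 0 < l ∧ Cm ρ l)] :
    cl ρ = ((range k).filter (fun l => 0 < l ∧ Cm ρ l)).card := by
  unfold cl
  congr 1
  ext l
  rw [mem_filter, mem_filter]
  exact Iff.rfl

/-- number of pairs of consecutive common levels -/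
lemma card_edges_le {k : ℕ} (ρ : Equiv.Perm (Fin k)) (hρ : ρ ≠ 1) (T : Finset ℕ)
    (hT : ∀ l ∈ T, l < k ∧ Cm ρ l ∧ Cm ρ (l + 1)) : T.card ≤ cl ρ := by
  classical
  rw [cl_eq]
  -- an uncommon level
  have hex : ∃ l₀, 0 < l₀ ∧ l₀ < k ∧ ¬ Cm ρ l₀ := by
    by_contra hcon
    push Not at hcon
    apply hρ
    apply perm_eq_one
    intro i
    by_cases hi : (i : ℕ) + 1 < k
    · have := hcon (i + 1) (Nat.succ_pos _) hi i (Nat.lt_succ_self _)
      omega
    · have := (ρ i).isLt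
      have := i.isLt
      omega
  obtain ⟨l₀, h0, hk, hn⟩ := hex
  have hmaps : ∀ l ∈ T, (if l < l₀ then l + 1 else l) ∈
      (range k).filter (fun l => 0 < l ∧ Cm ρ l) := by
    intro l hl
    obtain ⟨h1, h2, h3⟩ := hT l hl
    rw [mem_filter, mem_range]
    have hne : l ≠ l₀ := fun h => hn (h ▸ h2)
    have hne' : l + 1 ≠ l₀ := fun h => hn (h ▸ h3)
    split_ifs with h
    · exact ⟨by omega, by omega, h3⟩
    · exact ⟨h1, by omega, h2⟩
  refine card_le_card_of_injOn _ hmaps ?_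
  intro a ha b hb hab
  have ha' := hT a ha
  have hb' := hT b hb
  have hane : a ≠ l₀ := fun h => hn (h ▸ ha'.2.1)
  have hbne : b ≠ l₀ := fun h => hn (h ▸ hb'.2.1)
  have hane' : a + 1 ≠ l₀ := fun h => hn (h ▸ ha'.2.2)
  have hbne' : b + 1 ≠ l₀ := fun h => hn (h ▸ hb'.2.2)
  simp only at hab
  split_ifs at hab <;> omega

section
variable {n k : ℕ} (u w : Vx n) (hk : (u ∆ w).card = k)

/-- embedding of a permutation -/
noncomputable def em (σ : Equiv.Perm (Fin k)) : Fin k ↪ Fin n :=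
  σ.toEmbedding.trans ((u ∆ w).orderEmbOfFin hk).toEmbedding

/-- vertex marks -/
noncomputable def Vs (σ : Equiv.Perm (Fin k)) : Finset (Ix n) :=
  (Ioo 0 k).image (fun l => Sum.inl (ypt u (em u w hk σ) l))

/-- pair marks -/
noncomputable def Es (σ : Equiv.Perm (Fin k)) : Finset (Ix n) :=
  (range k).image (fun l => Sum.inr s(ypt u (em u w hk σ) l, ypt u (em u w hk σ) (l + 1)))

lemma em_mem (σ : Equiv.Perm (Fin k)) (S : Finset (Fin k)) :
    S.map (em u w hk σ) = (S.map σ.toEmbedding).map ((u ∆ w).orderEmbOfFin hk).toEmbedding := by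
  rw [Finset.map_map]; rfl

lemma ypt_top (σ : Equiv.Perm (Fin k)) : ypt u (em u w hk σ) k = w := by
  unfold ypt
  have h1 : (univ.filter (fun j : Fin k => (j : ℕ) < k)) = univ := by
    ext j; simp
  rw [h1, em_mem]
  have h2 : (univ : Finset (Fin k)).map σ.toEmbedding = univ := by
    ext j; simp
  rw [h2]
  have h3 : (univ : Finset (Fin k)).map ((u ∆ w).orderEmbOfFin hk).toEmbedding = u ∆ w := by
    ext x
    have := Finset.range_orderEmbOfFin (u ∆ w) hk
    have h4 : x ∈ Set.range ((u ∆ w).orderEmbOfFin hk) ↔ x ∈ (u ∆ w) := by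
      rw [this, mem_coe]
    rw [← h4, Finset.mem_map]
    constructor
    · rintro ⟨a, -, ha⟩
      exact ⟨a, ha⟩
    · rintro ⟨a, ha⟩
      exact ⟨a, mem_univ _, ha⟩
  rw [h3, ← symmDiff_assoc, symmDiff_self, bot_symmDiff]

lemma ypt_eq_iff (σ τ : Equiv.Perm (Fin k)) (l : ℕ)
    (h : ypt u (em u w hk σ) l = ypt u (em u w hk τ) l) : Cm (τ⁻¹ * σ) l := by
  unfold ypt at h
  have h1 := symmDiff_right_injective u h
  rw [em_mem, em_mem] at h1
  have h2 := Finset.map_injective _ h1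
  intro i hi
  have h3 : σ i ∈ (univ.filter (fun j : Fin k => (j : ℕ) < l)).map σ.toEmbedding := by
    rw [Finset.mem_map]
    exact ⟨i, by simp [hi], rfl⟩
  rw [h2, Finset.mem_map] at h3
  obtain ⟨j, hj, hj'⟩ := h3
  have : (τ⁻¹ * σ) i = j := by
    rw [Equiv.Perm.mul_apply, Equiv.Perm.inv_eq_iff_eq]
    exact hj'.symm
  rw [this]
  simpa using hj

variable (hy : S_ypt)
include hy

lemma ypt_lvl (σ τ : Equiv.Perm (Fin k)) {l l' : ℕ} (hl : l ≤ k) (hl' : l' ≤ k)
    (h : ypt u (em u w hk σ) l = ypt u (em u w hk τ) l') : l = l' := by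
  obtain ⟨h0, hd, -, -⟩ := hy n k u (em u w hk σ)
  obtain ⟨h0', hd', -, -⟩ := hy n k u (em u w hk τ)
  have e1 := hd 0 l (Nat.zero_le _) hl
  have e2 := hd' 0 l' (Nat.zero_le _) hl'
  rw [h0] at e1
  rw [h0'] at e2
  rw [h] at e1
  omega

lemma card_Vs (σ : Equiv.Perm (Fin k)) : (Vs u w hk σ).card = k - 1 := by
  unfold Vs
  rw [card_image_of_injOn, Nat.card_Ioo]
  · omega
  · intro a ha b hb hab
    simp only [coe_Ioo, Set.mem_Ioo] at ha hb
    exact ypt_lvl u w hk hy σ σ ha.2.le hb.2.le (Sum.inl_injective hab)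

lemma edge_eq (σ τ : Equiv.Perm (Fin k)) {l l' : ℕ} (hl : l < k) (hl' : l' < k)
    (h : s(ypt u (em u w hk σ) l, ypt u (em u w hk σ) (l + 1)) =
      s(ypt u (em u w hk τ) l', ypt u (em u w hk τ) (l' + 1))) :
    l = l' ∧ ypt u (em u w hk σ) l = ypt u (em u w hk τ) l ∧
      ypt u (em u w hk σ) (l + 1) = ypt u (em u w hk τ) (l + 1) := by
  rw [Sym2.eq_iff] at h
  rcases h with ⟨h1, h2⟩ | ⟨h1, h2⟩
  · have := ypt_lvl u w hk hy σ τ hl.le hl'.le h1
    subst this
    exact ⟨rfl, h1, h2⟩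
  · have a1 := ypt_lvl u w hk hy σ τ hl.le (by omega : l' + 1 ≤ k) h1
    have a2 := ypt_lvl u w hk hy σ τ (by omega : l + 1 ≤ k) hl'.le h2
    omega

lemma card_Es (σ : Equiv.Perm (Fin k)) : (Es u w hk σ).card = k := by
  unfold Es
  rw [card_image_of_injOn, card_range]
  intro a ha b hb hab
  simp only [coe_range, Set.mem_Iio] at ha hb
  exact (edge_eq u w hk hy σ σ ha hb (Sum.inr_injective hab)).1

lemma card_Vs_inter (σ τ : Equiv.Perm (Fin k)) :
    (Vs u w hk σ ∩ Vs u w hk τ).card ≤ cl (τ⁻¹ * σ) := by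
  classical
  rw [cl_eq]
  refine le_trans (card_le_card (t := ((range k).filter (fun l => 0 < l ∧ Cm (τ⁻¹ * σ) l)).image
    (fun l => (Sum.inl (ypt u (em u w hk σ) l) : Ix n))) ?_) card_image_le
  intro x hx
  rw [mem_inter] at hx
  obtain ⟨h1, h2⟩ := hx
  unfold Vs at h1 h2
  rw [mem_image] at h1 h2
  obtain ⟨a, ha, rfl⟩ := h1
  obtain ⟨b, hb, hab⟩ := h2
  rw [mem_Ioo] at ha hb
  have hab' := (Sum.inl_injective hab).symm
  have := ypt_lvl u w hk hy σ τ ha.2.le hb.2.le hab'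
  subst this
  rw [mem_image]
  exact ⟨a, by rw [mem_filter, mem_range]; exact ⟨ha.2, ha.1, ypt_eq_iff u w hk σ τ a hab'⟩, rfl⟩

lemma card_Es_inter (σ τ : Equiv.Perm (Fin k)) (hne : σ ≠ τ) :
    (Es u w hk σ ∩ Es u w hk τ).card ≤ cl (τ⁻¹ * σ) := by
  classical
  have hρ : τ⁻¹ * σ ≠ 1 := by
    intro h
    apply hne
    exact (inv_mul_eq_one.mp h).symm
  refine le_trans (card_le_card (t := ((range k).filter
    (fun l => Cm (τ⁻¹ * σ) l ∧ Cm (τ⁻¹ * σ) (l + 1))).image
    (fun l => (Sum.inr s(ypt u (em u w hk σ) l, ypt u (em u w hk σ) (l + 1)) : Ix n))) ?_)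
    (le_trans card_image_le (card_edges_le _ hρ _ ?_))
  · intro x hx
    rw [mem_inter] at hx
    obtain ⟨h1, h2⟩ := hx
    unfold Es at h1 h2
    rw [mem_image] at h1 h2
    obtain ⟨a, ha, rfl⟩ := h1
    obtain ⟨b, hb, hab⟩ := h2
    rw [mem_range] at ha hb
    obtain ⟨h3, h4, h5⟩ := edge_eq u w hk hy σ τ ha hb (Sum.inr_injective hab).symm
    rw [mem_image]
    refine ⟨a, ?_, rfl⟩
    rw [mem_filter, mem_range]
    exact ⟨ha, ypt_eq_iff u w hk σ τ a h4, ypt_eq_iff u w hk σ τ (a + 1) h5⟩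
  · intro l hl
    rw [mem_filter, mem_range] at hl
    exact hl

omit hy in
lemma prod_rt (pv pe : ℝ) (A B : Finset (Ix n)) (hA : ∀ x ∈ A, ∃ v, x = Sum.inl v)
    (hB : ∀ x ∈ B, ∃ v, x = Sum.inr v) :
    ∏ i ∈ A ∪ B, rt pv pe n i = pv ^ A.card * pe ^ B.card := by
  have hd : Disjoint A B := by
    rw [disjoint_left]
    intro x hx hx'
    obtain ⟨v, rfl⟩ := hA x hx
    obtain ⟨v', hv'⟩ := hB _ hx'
    cases hv'
  rw [prod_union hd]
  congr 1
  · rw [← prod_const]
    apply prod_congr rfl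
    intro x hx
    obtain ⟨v, rfl⟩ := hA x hx
    rfl
  · rw [← prod_const]
    apply prod_congr rfl
    intro x hx
    obtain ⟨v, rfl⟩ := hB x hx
    rfl

omit hy in
lemma Vs_inl (σ : Equiv.Perm (Fin k)) : ∀ x ∈ Vs u w hk σ, ∃ v, x = Sum.inl v := by
  intro x hx
  unfold Vs at hx
  rw [mem_image] at hx
  obtain ⟨a, -, rfl⟩ := hx
  exact ⟨_, rfl⟩

omit hy in
lemma Es_inr (σ : Equiv.Perm (Fin k)) : ∀ x ∈ Es u w hk σ, ∃ v, x = Sum.inr v := by
  intro x hx
  unfold Es at hx
  rw [mem_image] at hx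
  obtain ⟨a, -, rfl⟩ := hx
  exact ⟨_, rfl⟩

lemma geo_of (σ : Equiv.Perm (Fin k)) (ω : Om n)
    (h : ∀ i ∈ Vs u w hk σ ∪ Es u w hk σ, ω i = true) : Geo ω u w := by
  obtain ⟨h0, hd, -, -⟩ := hy n k u (em u w hk σ)
  refine ⟨ypt u (em u w hk σ), h0, by rw [hk]; exact ypt_top u w hk σ, ?_, ?_⟩
  · intro l hl
    rw [hk] at hl
    constructor
    · unfold nb
      rw [hd l (l + 1) (Nat.le_succ _) hl]
      omega
    · unfold opn
      apply h
      rw [mem_union]
      right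
      unfold Es
      rw [mem_image]
      exact ⟨l, mem_range.mpr hl, rfl⟩
  · intro l hl hl'
    rw [hk] at hl'
    unfold pres
    apply h
    rw [mem_union]
    left
    unfold Vs
    rw [mem_image]
    exact ⟨l, mem_Ioo.mpr ⟨hl, hl'⟩, rfl⟩

end

theorem geo2 (h1 : S_basic) (h2 : S_cyl) (h3 : S_cheb) (hy : S_ypt) : S_geo2 := by
  intro pv pe hv0 hv1 he0 he1 n u w k hk hk1
  have hr : ∀ i, 0 ≤ rt pv pe n i ∧ rt pv pe n i ≤ 1 := by
    intro i
    rcases i with i | i
    · exact ⟨hv0.le, hv1⟩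
    · exact ⟨he0.le, he1⟩
  obtain ⟨-, -, -, hmono, -, -, -, -⟩ := h1 (rt pv pe n) hr
  set A : Equiv.Perm (Fin k) → Om n → Prop :=
    fun σ ω => ∀ i ∈ Vs u w hk σ ∪ Es u w hk σ, ω i = true with hA
  set π := pv ^ (k - 1) * pe ^ k with hπ
  have hπ0 : 0 < π := by positivity
  have hPA : ∀ σ, Pr (rt pv pe n) (A σ) = π := by
    intro σ
    rw [hA]
    simp only
    rw [h2, prod_rt pv pe _ _ (Vs_inl u w hk σ) (Es_inr u w hk σ),
      card_Vs u w hk hy, card_Es u w hk hy]
  set lam := 1 / (pv * pe) with hlam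
  have hp0 : 0 < pv * pe := mul_pos hv0 he0
  have hlam0 : 0 < lam := by positivity
  have hcard : ((univ : Finset (Equiv.Perm (Fin k))).card : ℝ) = (k.factorial : ℝ) := by
    rw [card_univ, Fintype.card_perm, Fintype.card_fin]
  have hfac : (0 : ℝ) < (k.factorial : ℝ) := by exact_mod_cast Nat.factorial_pos k
  have hμ : ∑ σ ∈ (univ : Finset (Equiv.Perm (Fin k))), Pr (rt pv pe n) (A σ) =
      (k.factorial : ℝ) * π := by
    rw [sum_congr rfl (fun σ _ => hPA σ), sum_const, nsmul_eq_mul, hcard]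
  have hμ0 : 0 < ∑ σ ∈ (univ : Finset (Equiv.Perm (Fin k))), Pr (rt pv pe n) (A σ) := by
    rw [hμ]; positivity
  have hch := h3 (rt pv pe n) hr (univ : Finset (Equiv.Perm (Fin k))) A hμ0
  have hle : Pr (rt pv pe n) (fun ω => ¬ Geo ω u w) ≤
      Pr (rt pv pe n) (fun ω => ∀ σ ∈ (univ : Finset (Equiv.Perm (Fin k))), ¬ A σ ω) := by
    apply hmono
    intro ω hω σ _ hσ
    exact hω (geo_of u w hk hy σ ω hσ)
  refine hle.trans (hch.trans ?_)
  have hpair : ∀ σ τ : Equiv.Perm (Fin k), Pr (rt pv pe n) (fun ω => A σ ω ∧ A τ ω) ≤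
      π ^ 2 * lam ^ cl (τ⁻¹ * σ) + (if σ = τ then π ^ 2 * lam ^ k else 0) := by
    intro σ τ
    by_cases hst : σ = τ
    · subst hst
      rw [if_pos rfl]
      have e1 : Pr (rt pv pe n) (fun ω => A σ ω ∧ A σ ω) = π := by
        rw [← hPA σ]
        congr 1
        funext ω
        exact propext and_self_iff
      rw [e1]
      have e2 : π ≤ π ^ 2 * lam ^ k := by
        have e3 : 1 ≤ π * lam ^ k := by
          rw [hπ, hlam, one_div, inv_pow, ← div_eq_mul_inv, le_div_iff₀ (by positivity), one_mul,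
            mul_pow]
          apply mul_le_mul_of_nonneg_right _ (by positivity)
          exact pow_le_pow_of_le_one hv0.le hv1 (by omega)
        calc π = π * 1 := (mul_one _).symm
          _ ≤ π * (π * lam ^ k) := mul_le_mul_of_nonneg_left e3 hπ0.le
          _ = π ^ 2 * lam ^ k := by ring
      have e4 : 0 ≤ π ^ 2 * lam ^ cl (σ⁻¹ * σ) := by positivity
      linarith
    · rw [if_neg hst, add_zero]
      have e1 : Pr (rt pv pe n) (fun ω => A σ ω ∧ A τ ω) =
          pv ^ (Vs u w hk σ ∪ Vs u w hk τ).card * pe ^ (Es u w hk σ ∪ Es u w hk τ).card := by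
        rw [← prod_rt pv pe, ← h2]
        · congr 1
          funext ω
          rw [hA]
          simp only
          apply propext
          constructor
          · rintro ⟨ha, hb⟩ i hi
            simp only [mem_union] at hi
            rcases hi with (hi | hi) | (hi | hi)
            · exact ha i (by simp [hi])
            · exact hb i (by simp [hi])
            · exact ha i (by simp [hi])
            · exact hb i (by simp [hi])
          · intro h
            refine ⟨fun i hi => h i ?_, fun i hi => h i ?_⟩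
            · simp only [mem_union] at hi ⊢
              tauto
            · simp only [mem_union] at hi ⊢
              tauto
        · intro x hx
          rw [mem_union] at hx
          rcases hx with hx | hx
          · exact Vs_inl u w hk σ x hx
          · exact Vs_inl u w hk τ x hx
        · intro x hx
          rw [mem_union] at hx
          rcases hx with hx | hx
          · exact Es_inr u w hk σ x hx
          · exact Es_inr u w hk τ x hx
      rw [e1]
      set c := cl (τ⁻¹ * σ) with hc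
      have f1 := card_Vs_inter u w hk hy σ τ
      have f2 := card_Es_inter u w hk hy σ τ hst
      have f3 := card_union_add_card_inter (Vs u w hk σ) (Vs u w hk τ)
      have f4 := card_union_add_card_inter (Es u w hk σ) (Es u w hk τ)
      rw [card_Vs u w hk hy, card_Vs u w hk hy] at f3
      rw [card_Es u w hk hy, card_Es u w hk hy] at f4
      have g1 : pv ^ (Vs u w hk σ ∪ Vs u w hk τ).card * pv ^ c ≤ pv ^ (k - 1) * pv ^ (k - 1) := by
        rw [← pow_add, ← pow_add]
        exact pow_le_pow_of_le_one hv0.le hv1 (by omega)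
      have g2 : pe ^ (Es u w hk σ ∪ Es u w hk τ).card * pe ^ c ≤ pe ^ k * pe ^ k := by
        rw [← pow_add, ← pow_add]
        exact pow_le_pow_of_le_one he0.le he1 (by omega)
      rw [hlam, one_div, inv_pow, ← div_eq_mul_inv, le_div_iff₀ (by positivity), mul_pow]
      calc pv ^ (Vs u w hk σ ∪ Vs u w hk τ).card * pe ^ (Es u w hk σ ∪ Es u w hk τ).card *
            (pv ^ c * pe ^ c)
          = (pv ^ (Vs u w hk σ ∪ Vs u w hk τ).card * pv ^ c) *
            (pe ^ (Es u w hk σ ∪ Es u w hk τ).card * pe ^ c) := by ring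
        _ ≤ (pv ^ (k - 1) * pv ^ (k - 1)) * (pe ^ k * pe ^ k) :=
            mul_le_mul g1 g2 (by positivity) (by positivity)
        _ = π ^ 2 := by rw [hπ]; ring
  have hdouble : ∑ σ ∈ (univ : Finset (Equiv.Perm (Fin k))),
      ∑ τ ∈ (univ : Finset (Equiv.Perm (Fin k))), Pr (rt pv pe n) (fun ω => A σ ω ∧ A τ ω) ≤
      π ^ 2 * ((k.factorial : ℝ) * ∑ ρ : Equiv.Perm (Fin k), lam ^ cl ρ) +
        (k.factorial : ℝ) * (π ^ 2 * lam ^ k) := by
    calc ∑ σ ∈ (univ : Finset (Equiv.Perm (Fin k))),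
        ∑ τ ∈ (univ : Finset (Equiv.Perm (Fin k))), Pr (rt pv pe n) (fun ω => A σ ω ∧ A τ ω)
        ≤ ∑ σ ∈ (univ : Finset (Equiv.Perm (Fin k))), ∑ τ ∈ (univ : Finset (Equiv.Perm (Fin k))),
          (π ^ 2 * lam ^ cl (τ⁻¹ * σ) + (if σ = τ then π ^ 2 * lam ^ k else 0)) :=
          sum_le_sum (fun σ _ => sum_le_sum (fun τ _ => hpair σ τ))
      _ = ∑ σ ∈ (univ : Finset (Equiv.Perm (Fin k))), ∑ τ ∈ (univ : Finset (Equiv.Perm (Fin k))),
          (π ^ 2 * lam ^ cl (τ⁻¹ * σ)) + (k.factorial : ℝ) * (π ^ 2 * lam ^ k) := by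
          rw [← hcard, ← nsmul_eq_mul, ← sum_const, ← sum_add_distrib]
          apply sum_congr rfl
          intro σ _
          rw [sum_add_distrib, sum_ite_eq univ σ, if_pos (mem_univ _)]
      _ = _ := by
          congr 1
          rw [sum_comm]
          have : ∀ τ ∈ (univ : Finset (Equiv.Perm (Fin k))),
              ∑ σ ∈ (univ : Finset (Equiv.Perm (Fin k))), π ^ 2 * lam ^ cl (τ⁻¹ * σ) =
              π ^ 2 * ∑ ρ : Equiv.Perm (Fin k), lam ^ cl ρ := by
            intro τ _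
            rw [mul_sum]
            exact Equiv.sum_comp (Equiv.mulLeft τ⁻¹) (fun ρ => π ^ 2 * lam ^ cl ρ)
          rw [sum_congr rfl this, sum_const, nsmul_eq_mul, hcard]
          ring
  rw [hμ]
  set G := ∑ ρ : Equiv.Perm (Fin k), lam ^ cl ρ with hG
  have hfin : (π ^ 2 * ((k.factorial : ℝ) * G) + (k.factorial : ℝ) * (π ^ 2 * lam ^ k)) /
      ((k.factorial : ℝ) * π) ^ 2 = G / (k.factorial : ℝ) + lam ^ k / (k.factorial : ℝ) := by
    field_simp
  have hdiv := div_le_div_of_nonneg_right hdouble (sq_nonneg ((k.factorial : ℝ) * π))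
  rw [hfin] at hdiv
  linarith

end Pool.Agent.Q157.DC
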