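import Pool.Agent.Q157.DC.Main
import Pool.Agent.Q157.DC.Geo2
import Pool.Agent.Q182.DC.Basic
import Pool.Agent.Q95.DD.Indep
import Pool.Agent.Q225.DC.Cheb
import Pool.Agent.Q26.DC.Gd
import Pool.Agent.Q166.DC.Const
import Pool.Agent.Q166.DC.BadOne
import Pool.Agent.Q166.DC.PermRec
import Pool.Agent.Q166.DC.PermAsym
import Pool.Agent.Q144.DC.Geo
import Pool.Agent.Q225.DC.Att
import Pool.Agent.Q225.DC.Disj
import Pool.Agent.Q225.DC.Good
import Pool.Agent.Q144.DC.Bad2
import Pool.Agent.Q144.DC.Rich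
import Pool.Agent.Q144.DC.Ypt
import Pool.Agent.Q166.DC.Ea
import Pool.Agent.Q225.DC.EaNear
import Pool.Agent.Q95.DD.Poor
import Pool.Agent.Q166.DC.Cases
import Pool.Agent.Q225.DC.EaFar
import Pool.Agent.Q225.DC.EaExists
import Pool.Agent.Q166.DC.EaLow
import Pool.Agent.Q166.DC.Upper

set_option autoImplicit false

namespace Pool.Agent.Q157.DC

theorem a_basic : S_basic := Pool.Agent.Q182.DC.basic
theorem a_cyl : S_cyl := Pool.Agent.Q182.DC.cyl
theorem a_ex_prod : S_ex_prod := Pool.Agent.Q95.DD.ex_prod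
theorem a_pr_forall : S_pr_forall := Pool.Agent.Q95.DD.pr_forall a_ex_prod
theorem a_pr_and : S_pr_and := Pool.Agent.Q95.DD.pr_and a_pr_forall
theorem a_fkg : S_fkg := Pool.Agent.Q95.DD.fkg' a_basic
theorem a_cheb : S_cheb := Pool.Agent.Q225.DC.cheb a_basic
theorem a_Gd : S_Gd := Pool.Agent.Q26.DC.gd
theorem a_const : S_const := Pool.Agent.Q166.DC.Const.const
theorem a_nearCard : S_nearCard := Pool.Agent.Q166.DC.BadOne.nearCard
theorem a_bad1 : S_bad1 := Pool.Agent.Q166.DC.BadOne.bad1 a_basic a_nearCard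
theorem a_perm_rec : S_perm_rec := Pool.Agent.Q166.DC.PermRec.perm_rec
theorem a_perm_asym : S_perm_asym := Pool.Agent.Q166.DC.PermAsym.perm_asym
theorem a_ypt : S_ypt := Pool.Agent.Q144.DC.ypt'
theorem a_geo2 : S_geo2 := geo2 a_basic a_cyl a_cheb a_ypt
theorem a_geo : S_geo := Pool.Agent.Q26.DC.geo a_perm_rec a_perm_asym a_geo2
theorem a_geo_dep : S_geo_dep := Pool.Agent.Q144.DC.geo_dep
theorem a_geo_dist : S_geo_dist := Pool.Agent.Q144.DC.geo_dist
theorem a_att : S_att := Pool.Agent.Q225.DC.A.att a_basic a_pr_forall a_cyl a_geo_dep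
theorem a_disj : S_disj := Pool.Agent.Q225.DC.disj
theorem a_iv : S_iv := Pool.Agent.Q225.DC.iv
theorem a_rich : S_rich := Pool.Agent.Q144.DC.rich a_geo_dist
theorem a_EA_poor : S_EA_poor := Pool.Agent.Q144.DC.ea_poor a_ypt
theorem a_EA_same : S_EA_same := Pool.Agent.Q166.DC.Ea.ea_same a_ypt
theorem a_EA_dist : S_EA_dist := Pool.Agent.Q166.DC.Ea.ea_dist a_ypt
theorem a_EA_near : S_EA_near := Pool.Agent.Q225.DC.ea_near a_basic a_ypt a_EA_same a_EA_poor
theorem a_lower : S_lower := Pool.Agent.Q144.DC.lower a_ypt a_EA_poor a_EA_dist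
theorem a_poor : S_poor := Pool.Agent.Q95.DD.poor' a_basic a_ex_prod a_Gd a_pr_and a_cyl
theorem a_poorBound : S_poorBound := Pool.Agent.Q166.DC.Const.poorBound a_poor a_const
theorem a_case1 : S_case1 := Pool.Agent.Q166.DC.Cases.case1
theorem a_case2 : S_case2 := Pool.Agent.Q166.DC.Cases.case2
theorem a_good : S_good :=
  Pool.Agent.Q225.DC.G.good a_basic a_geo a_att a_disj a_iv a_case1 a_case2
theorem a_bad2 : S_bad2 := Pool.Agent.Q144.DC.bad2 a_basic a_good
theorem a_EA_low : S_EA_low :=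
  Pool.Agent.Q166.DC.EaLow.ea_low a_basic a_cyl a_pr_and a_fkg a_ypt
theorem a_EA_far : S_EA_far := Pool.Agent.Q225.DC.F.ea_far a_pr_and a_ypt
theorem a_EA_exists : S_EA_exists :=
  Pool.Agent.Q225.DC.X.ea_exists a_basic a_cheb a_nearCard a_EA_low a_EA_far a_EA_near
theorem a_upper : S_upper := Pool.Agent.Q166.DC.Upper.upper
theorem a_main : S_main :=
  main a_basic a_poorBound a_const a_bad1 a_bad2 a_rich a_EA_exists a_upper a_lower

end Pool.Agent.Q157.DC
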