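import Pool.Agent.Q157.DC.Stm

set_option autoImplicit false

open Finset Filter Topology
open scoped symmDiff

namespace Pool.Agent.Q157.DC

theorem main (hB : S_basic) (hPB : S_poorBound) (hC : S_const) (hb1 : S_bad1) (hb2 : S_bad2)
    (hR : S_rich) (hE : S_EA_exists) (hU : S_upper) (hL : S_lower) : S_main := by
  intro pv pe hv0 hv1 he0 he1 hp
  obtain ⟨δ, ρ, C, hδ0, hδ1, hρ, hC0, hρ2, hPB'⟩ := hPB pv pe hv0 hv1 he0 he1 hp
  have hp0 : 0 < pv * pe := mul_pos hv0 he0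
  obtain ⟨hm1, hm2, -⟩ := hC (pv * pe) hp0 hp
  set m := mp (pv * pe) with hm
  have t1 := hb1 pv pe δ ρ C m hv0 hv1 he0 he1 hρ hC0 hρ2 hPB' (4 * m)
  have t2 := hb2 pv pe hv0 hv1 he0 he1 δ m hδ0 hδ1
  have t3 := hE pv pe δ ρ C m hv0 hv1 he0 he1 hδ0 hρ hC0 hm1 hm2 hρ2 hPB'
  obtain ⟨n1, hn1⟩ := hR δ m hδ0 hδ1
  obtain ⟨n2, hn2⟩ := hU δ m hδ0 hδ1
  obtain ⟨n3, hn3⟩ := hL δ m hδ0 hδ1 hm1
  have hr : ∀ n : ℕ, ∀ i, 0 ≤ rt pv pe n i ∧ rt pv pe n i ≤ 1 := by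
    intro n i
    rcases i with i | i
    · exact ⟨hv0.le, hv1⟩
    · exact ⟨he0.le, he1⟩
  have key : ∀ n : ℕ, max n1 (max n2 n3) ≤ n →
      1 - (Pr (rt pv pe n) (Bad1 δ m (4 * m)) + Pr (rt pv pe n) (Bad2 δ m) +
        Pr (rt pv pe n) (fun ω => ∀ α : Vx n × (Fin m ↪ Fin n), ¬ EA ω α)) ≤
      Pr (rt pv pe n) (fun ω => DiamEq ω (n + m)) := by
    intro n hn
    obtain ⟨-, -, -, hmono, hnot, hor, -, -⟩ := hB (rt pv pe n) (hr n)
    have hn1' : n1 ≤ n := le_trans (le_max_left _ _) hn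
    have hn2' : n2 ≤ n := le_trans (le_trans (le_max_left _ _) (le_max_right _ _)) hn
    have hn3' : n3 ≤ n := le_trans (le_trans (le_max_right _ _) (le_max_right _ _)) hn
    have h1 : Pr (rt pv pe n) (fun ω => ¬ DiamEq ω (n + m)) ≤
        Pr (rt pv pe n) (fun ω => (Bad1 δ m (4 * m) ω ∨ Bad2 δ m ω) ∨
          ∀ α : Vx n × (Fin m ↪ Fin n), ¬ EA ω α) := by
      apply hmono
      intro ω hω
      by_contra hcon
      push Not at hcon
      obtain ⟨⟨hc1, hc2⟩, hc3⟩ := hcon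
      apply hω
      have hrich := hn1 n hn1' ω hc2
      have hup := hn2 n hn2' ω hc1 hrich
      obtain ⟨x, y, hx, hy, hxy, hd⟩ := hn3 n hn3' ω hc1 hrich hc3
      refine ⟨⟨x, y, hx, hy, hxy, hd⟩, ?_⟩
      rintro d ⟨x', y', hx', hy', hxy', rfl⟩
      exact hup x' y' hx' hy' hxy'
    have h2 := hnot (fun ω => DiamEq ω (n + m))
    have h3 := hor (fun ω => Bad1 δ m (4 * m) ω ∨ Bad2 δ m ω)
      (fun ω => ∀ α : Vx n × (Fin m ↪ Fin n), ¬ EA ω α)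
    have h4 := hor (Bad1 δ m (4 * m)) (Bad2 δ m)
    linarith
  have hlim : Tendsto (fun n : ℕ => 1 - (Pr (rt pv pe n) (Bad1 δ m (4 * m)) +
      Pr (rt pv pe n) (Bad2 δ m) +
        Pr (rt pv pe n) (fun ω => ∀ α : Vx n × (Fin m ↪ Fin n), ¬ EA ω α))) atTop (𝓝 1) := by
    have := ((t1.add t2).add t3).const_sub 1
    simpa using this
  refine tendsto_of_tendsto_of_tendsto_of_le_of_le' hlim tendsto_const_nhds ?_ ?_
  · filter_upwards [eventually_ge_atTop (max n1 (max n2 n3))] with n hn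
    exact key n hn
  · filter_upwards with n
    obtain ⟨-, -, h01, -⟩ := hB (rt pv pe n) (hr n)
    exact (h01 _).2

end Pool.Agent.Q157.DC
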